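import Pool.Agent.H98.EX.BTargets
import Pool.Agent.H57.SLN.KRB

/-!
# Row KRY of the board exa: the inter-arrival law on the scale of the cells, `α = 1`
-/

set_option autoImplicit false

open MeasureTheory ProbabilityTheory Filter Topology
open scoped ENNReal
open Pool.Agent.H95 Pool.Agent.H95.Cop
open Pool.Agent.H98.SLN (RG TS)
open Pool.Agent.H98.EX
open Pool.Agent.H57.SLN (krb_up krb_lo krb_TSlo krb_TSup)

namespace Pool.Agent.H67.EX

/-- bounds for the masses -/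
theorem kry_kk (K : PMF ℕ) (c ρ : ℝ) (hc : 0 < c) (hρ : 0 < ρ)
    (h : Tendsto (fun n : ℕ => (K n).toReal * (n : ℝ) ^ (1 + (1 : ℝ))) atTop (𝓝 c)) :
    ∃ n0 : ℕ, 2 ≤ n0 ∧ ∀ n, n0 ≤ n →
      (1 - ρ) * c ≤ kk K n * (n : ℝ) ^ 2 ∧ kk K n * (n : ℝ) ^ 2 ≤ (1 + ρ) * c := by
  have h1 := h.eventually (Ioo_mem_nhds (by nlinarith : (1 - ρ) * c < c)
    (by nlinarith : c < (1 + ρ) * c))
  obtain ⟨N, hN⟩ := eventually_atTop.mp h1
  refine ⟨max N 2, le_max_right _ _, fun n hn => ?_⟩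
  have h2 := hN n (le_trans (le_max_left _ _) hn)
  have e : (n : ℝ) ^ (1 + (1 : ℝ)) = (n : ℝ) ^ 2 := by
    rw [← Real.rpow_natCast]; norm_num
  rw [e] at h2
  exact ⟨h2.1.le, h2.2.le⟩

/-- KRY: `α = 1`. -/
theorem pf_KRY : T_KRY := by
  intro r hr0 hr1 K hK0 c hc hK
  obtain ⟨ρ, hρ⟩ : ∃ ρ : ℝ, ρ = r / 4 := ⟨_, rfl⟩
  have hρ0 : 0 < ρ := by rw [hρ]; linarith
  have hρ1 : ρ ≤ 1 / 32 := by rw [hρ]; linarith
  obtain ⟨n0, hn0, hkk⟩ := kry_kk K c ρ hc hρ0 hK
  obtain ⟨Cu, hCu⟩ : ∃ Cu : ℝ, Cu = (1 + ρ) * c := ⟨_, rfl⟩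
  obtain ⟨Cl, hCl⟩ : ∃ Cl : ℝ, Cl = (1 - ρ) * c := ⟨_, rfl⟩
  have hCu0 : 0 < Cu := by rw [hCu]; positivity
  have hCl0 : 0 < Cl := by
    rw [hCl]
    exact mul_pos (by linarith) hc
  have e54 : 5 / 4 * (4 / 5 * Cu) = Cu := by ring
  have e34 : 3 / 4 * (4 / 3 * Cl) = Cl := by ring
  have hup := krb_up K (4 / 5 * Cu) (by positivity) n0 hn0 (fun n hn => by
    rw [e54, hCu]
    exact (hkk n hn).2)
  have hlo := krb_lo K (4 / 3 * Cl) (by positivity) n0 hn0 (fun n hn => by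
    rw [e34, hCl]
    exact (hkk n hn).1)
  have hTu := krb_TSup K (4 / 5 * Cu) (by positivity) n0 hn0 hup
  have hTl := krb_TSlo K (4 / 3 * Cl) (by positivity) n0 hlo
  rw [e54] at hTu
  rw [e34] at hTl
  have hlog : Tendsto (fun l : ℕ => Real.log (l : ℝ)) atTop atTop :=
    Real.tendsto_log_atTop.comp tendsto_natCast_atTop_atTop
  have hnat : Tendsto (fun l : ℕ => (l : ℝ)) atTop atTop := tendsto_natCast_atTop_atTop
  have hRG := Pool.Agent.H57.SLN.pf_KRB K hK0 c hc hK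
  filter_upwards [hRG, eventually_ge_atTop n0, eventually_ge_atTop ((n0 + 2) ^ 2),
    hlog.eventually_ge_atTop 1, hlog.eventually_ge_atTop (n0 / (ρ * c)),
    hlog.eventually_ge_atTop ((Real.log (1 / r) + Real.log ((n0 : ℝ) + 1)) / ρ),
    hnat.eventually_ge_atTop ((n0 : ℝ) / r)] with l hrg hl1 hl2 hl3 hl4 hl5 hl6
  have hL0 : 0 < Real.log (l : ℝ) := lt_of_lt_of_le (by norm_num) hl3
  have hn0' : (2 : ℝ) ≤ n0 := by exact_mod_cast hn0
  have hl2' : ((n0 : ℝ) + 2) ^ 2 ≤ l := by exact_mod_cast hl2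
  have hl0 : (0 : ℝ) < l := lt_of_lt_of_le (by positivity) hl2'
  -- the scale `q`
  have hs : (n0 : ℝ) + 2 ≤ Real.sqrt (1 / Real.log l) * l := by
    have hle : Real.log (l : ℝ) ≤ l := by
      have := Real.log_le_sub_one_of_pos hl0
      linarith
    have h1 : Real.sqrt (1 / l) ≤ Real.sqrt (1 / Real.log l) := by
      apply Real.sqrt_le_sqrt
      exact one_div_le_one_div_of_le hL0 hle
    have h2 : Real.sqrt (1 / l) * l = Real.sqrt l := by
      rw [Real.sqrt_div zero_le_one, Real.sqrt_one]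
      have h3 := Real.mul_self_sqrt hl0.le
      have h4 : 0 < Real.sqrt l := Real.sqrt_pos.mpr hl0
      field_simp
      nlinarith
    have h5 : (n0 : ℝ) + 2 ≤ Real.sqrt l := by
      rw [Real.le_sqrt (by positivity) hl0.le]
      exact hl2'
    calc (n0 : ℝ) + 2 ≤ Real.sqrt l := h5
      _ = Real.sqrt (1 / l) * l := h2.symm
      _ ≤ Real.sqrt (1 / Real.log l) * l := mul_le_mul_of_nonneg_right h1 hl0.le
  have hq0 : n0 ≤ ⌊Real.sqrt (1 / Real.log l) * l⌋₊ := by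
    apply Nat.le_floor
    linarith
  have hpow : ∀ n : ℕ, (n : ℝ) ^ (-(1 + (1 : ℝ))) = ((n : ℝ) ^ 2)⁻¹ := by
    intro n
    rw [Real.rpow_neg (Nat.cast_nonneg n), ← Real.rpow_natCast]
    norm_num
  have hnpos : ∀ n : ℕ, ⌊Real.sqrt (1 / Real.log l) * l⌋₊ ≤ n → (0 : ℝ) < (n : ℝ) ^ 2 := by
    intro n hn
    have : 0 < n := by omega
    have h' : (0 : ℝ) < n := by exact_mod_cast this
    positivity
  have e1 : (l : ℝ) ^ (1 - (1 : ℝ)) = 1 := by rw [sub_self, Real.rpow_zero]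
  -- the bounds of the truncated mean
  have hTk : TS K l ≤ (1 + 2 * ρ) * c * Real.log l := by
    have h1 := hTu l hl1
    have h2 : Real.log ((l : ℝ) - 1) ≤ Real.log l :=
      Real.log_le_log (by nlinarith) (by linarith)
    have h3 : (n0 : ℝ) ≤ ρ * c * Real.log l := by
      rw [div_le_iff₀ (by positivity)] at hl4
      linarith
    have h4 : Cu * Real.log ((l : ℝ) - 1) ≤ Cu * Real.log l :=
      mul_le_mul_of_nonneg_left h2 hCu0.le
    rw [hCu] at h1 h4
    nlinarith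
  have hTL : ∀ L : ℕ, n0 ≤ L → r * l ≤ L → (1 - ρ) ^ 2 * c * Real.log l ≤ TS K L := by
    intro L hL hrL
    have h1 := hTl L hL
    have h2 : Real.log l - Real.log (1 / r) ≤ Real.log ((L : ℝ) + 1) := by
      rw [← Real.log_div hl0.ne' (by positivity)]
      refine Real.log_le_log (by positivity) ?_
      rw [div_div_eq_mul_div, div_one]
      linarith
    have h3 : Real.log (1 / r) + Real.log ((n0 : ℝ) + 1) ≤ ρ * Real.log l := by
      rw [div_le_iff₀ hρ0] at hl5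
      linarith
    have h4 : (1 - ρ) * Real.log l ≤ Real.log ((L : ℝ) + 1) - Real.log ((n0 : ℝ) + 1) := by
      linarith
    have h5 := mul_le_mul_of_nonneg_left h4 hCl0.le
    refine le_trans (le_of_eq ?_) (h5.trans h1)
    rw [hCl]
    ring
  have hcl : 0 < c * Real.log l := mul_pos hc hL0
  have hrl : ∀ L : ℕ, r * l ≤ L → n0 ≤ L := by
    intro L hL
    rw [div_le_iff₀ hr0] at hl6
    have : (n0 : ℝ) ≤ L := by linarith
    exact_mod_cast this
  refine ⟨hrg, hr0, hr1, ?_, ?_, ?_, ?_, ?_⟩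
  · intro n hn
    rw [hpow n, ← div_eq_mul_inv, le_div_iff₀ (hnpos n hn)]
    refine (hkk n (by omega)).2.trans ?_
    refine mul_le_mul_of_nonneg_right ?_ hc.le
    linarith
  · intro n hn
    rw [hpow n, ← div_eq_mul_inv, div_le_iff₀ (hnpos n hn)]
    refine le_trans ?_ (hkk n (by omega)).1
    refine mul_le_mul_of_nonneg_right ?_ hc.le
    linarith
  · intro L hL1 hL2
    have h1 := hTL L (hrl L hL1) hL1
    refine le_trans ?_ h1
    calc (1 - r) * TS K l ≤ (1 - r) * ((1 + 2 * ρ) * c * Real.log l) :=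
          mul_le_mul_of_nonneg_left hTk (by linarith)
      _ = (1 - r) * (1 + 2 * ρ) * (c * Real.log l) := by ring
      _ ≤ (1 - ρ) ^ 2 * (c * Real.log l) := by
          refine mul_le_mul_of_nonneg_right ?_ hcl.le
          rw [hρ]
          nlinarith
      _ = _ := by ring
  · rw [e1, mul_one]
    have h1 := hTL l hl1 (by nlinarith)
    have h2 : (1 - ρ) ^ 2 * c ≤ 1 / Real.log l * TS K l := by
      rw [one_div, ← div_eq_inv_mul, le_div_iff₀ hL0]
      exact h1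
    refine le_trans ?_ (mul_le_mul_of_nonneg_left h2 (by linarith))
    have h3 : 1 ≤ (1 + r) * (1 - ρ) ^ 2 := by
      rw [hρ]
      have h4 : r * r ≤ r * (1 / 8) := mul_le_mul_of_nonneg_left hr1 hr0.le
      have h5 : 0 ≤ r * r * r := by positivity
      linarith [show (1 + r) * (1 - r / 4) ^ 2 =
        1 + r / 2 - 7 / 16 * (r * r) + r * r * r / 16 by ring]
    nlinarith
  · rw [e1, mul_one]
    have h2 : 1 / Real.log l * TS K l ≤ (1 + 2 * ρ) * c := by
      rw [one_div, ← div_eq_inv_mul, div_le_iff₀ hL0]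
      exact hTk
    refine (mul_le_mul_of_nonneg_left h2 (by linarith)).trans ?_
    have h3 : (1 - r) * (1 + 2 * ρ) ≤ 1 := by
      rw [hρ]
      nlinarith
    nlinarith

end Pool.Agent.H67.EX
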