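import Pool.Agent.H98.EX.BTargets

/-!
# Row UPX of the board exa: upper bound, `α < 1`
-/

set_option autoImplicit false

open MeasureTheory ProbabilityTheory Filter Topology
open scoped ENNReal
open Pool.Agent.H95 Pool.Agent.H95.Cop
open Pool.Agent.H96.Cop (Wn chargeLaw)
open Pool.Agent.H99.CE (Reg)
open Pool.Agent.H98.EX

namespace Pool.Agent.H67.EX

theorem cells_inf (ϑ : ℝ) (hϑ : 0 < ϑ) :
    Tendsto (fun lam : ℝ => ⌈ϑ / lam ^ 2⌉₊) (𝓝[>] (0 : ℝ)) atTop := by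
  have h1 : Tendsto (fun lam : ℝ => ϑ / lam ^ 2) (𝓝[>] (0 : ℝ)) atTop := by
    have h2 : Tendsto (fun lam : ℝ => lam ^ 2) (𝓝[>] (0 : ℝ)) (𝓝[>] (0 : ℝ)) := by
      rw [tendsto_nhdsWithin_iff]
      refine ⟨?_, ?_⟩
      · have : Tendsto (fun lam : ℝ => lam ^ 2) (𝓝 (0 : ℝ)) (𝓝 ((0 : ℝ) ^ 2)) :=
          (continuous_pow 2).tendsto 0
        rw [zero_pow two_ne_zero] at this
        exact this.mono_left nhdsWithin_le_nhds
      · filter_upwards [self_mem_nhdsWithin] with lam hlam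
        have hlam1 : 0 < lam := hlam
        have : 0 < lam ^ 2 := by positivity
        exact this
    have h3 := (tendsto_inv_nhdsGT_zero.comp h2).const_mul_atTop hϑ
    refine h3.congr (fun lam => ?_)
    simp only [Function.comp, div_eq_mul_inv]
  exact tendsto_nat_ceil_atTop.comp h1

theorem ks_pos : 0 < ks := by
  unfold ks
  have : 0 < Real.sqrt 2 := Real.sqrt_pos.2 (by norm_num)
  exact Real.rpow_pos_of_pos (by positivity) _

/-- regularity from the conditions on the scale `k` -/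
theorem reg_of_RX {K : PMF ℕ} {α c δ ϑ : ℝ} {k q : ℕ} (hϑ : 0 < ϑ) (hc : 0 < c)
    (h : RX K α c δ (ϑ / 8) k q) : Reg K α c ϑ q := by
  intro n hn
  have h1 := h.up n hn
  have h2 := h.lo n hn
  have h3 : 0 ≤ (n : ℝ) ^ (-(1 + α)) := Real.rpow_nonneg (Nat.cast_nonneg n) _
  constructor
  · refine le_trans ?_ h2
    refine mul_le_mul_of_nonneg_right ?_ h3
    refine mul_le_mul_of_nonneg_right ?_ hc.le
    linarith
  · refine h1.trans ?_
    refine mul_le_mul_of_nonneg_right ?_ h3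
    refine mul_le_mul_of_nonneg_right ?_ hc.le
    linarith

/-- the critical curve is below `h` if the moments are bounded at `h` -/
theorem crit_le (hNEG : Pool.Agent.H99.CE.T_NEG) (hMOH : Pool.Agent.H98.SLN.T_MOH)
    (K : PMF ℕ) (μ : Measure ℝ) [IsProbabilityMeasure μ]
    (hexp : ∀ t : ℝ, Integrable (fun z => Real.exp (t * z)) μ) (lam h θ C : ℝ) (h0 : 0 < lam)
    (hh : 0 ≤ h) (hθ : 0 < θ) (hC : 0 ≤ C)
    (hbd : ∀ N : ℕ, ∫⁻ x, Wn K N x ^ θ ∂(iid (chargeLaw μ lam h)) ≤ ENNReal.ofReal C) :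
    criticalCurve K μ lam ≤ h := by
  unfold criticalCurve
  apply Real.sSup_le
  · rintro h' ⟨hh0, f, hf0, hfe⟩
    by_contra hcon
    push Not at hcon
    have hbd' : ∀ N : ℕ, ∫⁻ x, Wn K N x ^ θ ∂(iid (chargeLaw μ lam h')) ≤
        ENNReal.ofReal C := fun N =>
      (hMOH K μ lam h h' θ h0.le hcon.le hθ.le N).trans (hbd N)
    have := hNEG K μ hexp lam h' θ C hθ hC hbd' f hfe
    linarith
  · exact hh

theorem pf_UPX (hNEG : Pool.Agent.H99.CE.T_NEG) (hMOH : Pool.Agent.H98.SLN.T_MOH)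
    (hUFX : T_UFX) (hPLX : T_PLX) (hKRX : T_KRX) : T_UPX := by
  intro e0 he0
  obtain ⟨kp, hkp⟩ : ∃ kp : ℝ, kp = ks + e0 := ⟨_, rfl⟩
  have hks := ks_pos
  have hkp0 : 0 < kp := by rw [hkp]; linarith
  obtain ⟨ϑ, U, δ2, hϑ0, hϑ1, hU, hδ2, hufx⟩ := hUFX kp (by rw [hkp]; linarith)
  obtain ⟨α1, hα1, hkrx⟩ := hKRX (ϑ / 8) (by linarith) (by linarith)
  obtain ⟨m, hm⟩ : ∃ m : ℝ, m = min (min δ2 (1 - α1)) (min ((1 / kp) ^ 4) 1) := ⟨_, rfl⟩
  have hm0 : 0 < m := by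
    rw [hm]
    exact lt_min (lt_min hδ2 (by linarith)) (lt_min (by positivity) one_pos)
  refine ⟨1 - m, by linarith, ?_⟩
  intro α hα hα' K hK0 cK hcK hK μ _ hexp hmean hvar
  obtain ⟨δ, hδ⟩ : ∃ δ : ℝ, δ = 1 - α := ⟨_, rfl⟩
  have hδ0 : 0 < δ := by rw [hδ]; linarith
  have hδm : δ < m := by rw [hδ]; linarith
  rw [hm] at hδm
  have hδlt2 : δ < δ2 := hδm.trans_le ((min_le_left _ _).trans (min_le_left _ _))
  have hδlt3 : δ < 1 - α1 := hδm.trans_le ((min_le_left _ _).trans (min_le_right _ _))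
  have hδlt4 : δ < (1 / kp) ^ 4 := hδm.trans_le ((min_le_right _ _).trans (min_le_left _ _))
  have hδlt5 : δ < 1 := hδm.trans_le ((min_le_right _ _).trans (min_le_right _ _))
  obtain ⟨ε, hε⟩ : ∃ ε : ℝ, ε = kp * δ ^ (1 / 4 : ℝ) := ⟨_, rfl⟩
  have hδq : 0 ≤ δ ^ (1 / 4 : ℝ) := Real.rpow_nonneg hδ0.le _
  have hε0 : 0 ≤ ε := by rw [hε]; positivity
  have hε1 : ε ≤ 1 := by
    have h1 : δ ^ (1 / 4 : ℝ) ≤ ((1 / kp) ^ 4) ^ (1 / 4 : ℝ) :=
      Real.rpow_le_rpow hδ0.le hδlt4.le (by norm_num)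
    have h2 : ((1 / kp) ^ 4) ^ (1 / 4 : ℝ) = 1 / kp := by
      rw [← Real.rpow_natCast, ← Real.rpow_mul (by positivity)]
      norm_num
    rw [h2] at h1
    rw [hε]
    calc kp * δ ^ (1 / 4 : ℝ) ≤ kp * (1 / kp) := mul_le_mul_of_nonneg_left h1 hkp0.le
      _ = 1 := by field_simp
  obtain ⟨C, lam0, hC, hlam0, hplx⟩ := hPLX μ hexp hmean hvar ϑ U hϑ0 hU
  have e1 := (cells_inf ϑ hϑ0).eventually (hkrx α (by linarith) hα' K hK0 cK hcK hK)
  have e2 := (cells_inf ϑ hϑ0).eventually (eventually_ge_atTop ⌈16 / ϑ⌉₊)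
  have e5 : ∀ᶠ lam in 𝓝[>] (0 : ℝ), lam < min lam0 (δ / C) :=
    mem_nhdsWithin_of_mem_nhds (gt_mem_nhds (lt_min hlam0 (by positivity)))
  filter_upwards [e1, e2, e5, self_mem_nhdsWithin] with lam g1 g2 g5 hlam
  have h0 : 0 < lam := hlam
  have hl0 : lam < lam0 := g5.trans_le (min_le_left _ _)
  have hlC : C * lam ≤ δ := by
    have := (g5.trans_le (min_le_right _ _)).le
    rw [le_div_iff₀ hC] at this
    linarith
  obtain ⟨k, hk⟩ : ∃ k : ℕ, k = ⌈ϑ / lam ^ 2⌉₊ := ⟨_, rfl⟩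
  rw [← hk, ← hδ] at g1
  rw [← hk] at g2
  have hEG := hplx lam ε h0 hl0 hε0 hε1
  rw [← hk, hε] at hEG
  have hqk : ⌊Real.sqrt δ * k⌋₊ ≤ k := by
    refine Nat.floor_le_of_le ?_
    have h1 : Real.sqrt δ ≤ 1 := by
      rw [← Real.sqrt_one]
      exact Real.sqrt_le_sqrt hδlt5.le
    have h2 : (0 : ℝ) ≤ k := Nat.cast_nonneg k
    nlinarith
  have hϑk : 16 ≤ ϑ * k := by
    have h1 : 16 / ϑ ≤ (k : ℝ) := (Nat.le_ceil _).trans (by exact_mod_cast g2)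
    rw [div_le_iff₀ hϑ0] at h1
    linarith
  obtain ⟨θ, C', hθ0, -, hC', hbd⟩ := hufx K α cK δ (C * lam) k _ _
    (chargeLaw μ lam ((3 / 4 + kp * δ ^ (1 / 4 : ℝ)) * lam)) hδlt2 g1 hEG (by positivity) hlC
    (reg_of_RX hϑ0 hcK g1) hqk hϑk
  have hcrit := crit_le hNEG hMOH K μ hexp lam _ θ C' h0 (by positivity) hθ0 hC' hbd
  rw [div_le_iff₀ h0, ← hδ, ← hkp]
  exact hcrit

end Pool.Agent.H67.EX
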