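import Pool.Agent.H67.EX.UPX

/-!
# Row UPY of the board exa: upper bound, `α = 1`
-/

set_option autoImplicit false

open MeasureTheory ProbabilityTheory Filter Topology
open scoped ENNReal
open Pool.Agent.H95 Pool.Agent.H95.Cop
open Pool.Agent.H96.Cop (Wn chargeLaw)
open Pool.Agent.H98.EX

namespace Pool.Agent.H67.EX

theorem pow4_root {a : ℝ} (ha : 0 ≤ a) : (a ^ 4) ^ (1 / 4 : ℝ) = a := by
  rw [← Real.rpow_natCast, ← Real.rpow_mul ha]
  norm_num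

theorem root_pow4 {a : ℝ} (ha : 0 ≤ a) : (a ^ (1 / 4 : ℝ)) ^ 4 = a := by
  rw [← Real.rpow_natCast, ← Real.rpow_mul ha]
  norm_num

theorem ks_eq : ks = 2 ^ (1 / 4 : ℝ) * (1 / (4 * Real.sqrt Real.pi)) := by
  have hπ : 0 < Real.pi := Real.pi_pos
  have hs : 0 < Real.sqrt 2 := Real.sqrt_pos.2 (by norm_num)
  have hsp : 0 < Real.sqrt Real.pi := Real.sqrt_pos.2 hπ
  obtain ⟨t, ht⟩ : ∃ t : ℝ, t = (2 : ℝ) ^ (1 / 4 : ℝ) := ⟨_, rfl⟩
  have ht0 : 0 < t := by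
    rw [ht]
    exact Real.rpow_pos_of_pos (by norm_num) _
  have ht4 : t ^ 4 = 2 := by
    rw [ht]
    exact root_pow4 (by norm_num)
  have ht2 : t ^ 2 = Real.sqrt 2 := by
    have h1 : (t ^ 2) ^ 2 = 2 := by
      rw [← ht4]
      ring
    rw [← h1, Real.sqrt_sq (by positivity)]
  rw [← ht]
  have h1 : ks ^ 2 = (8 * Real.sqrt 2 * Real.pi)⁻¹ := by
    unfold ks
    rw [← Real.rpow_natCast, ← Real.rpow_mul (by positivity), ← Real.rpow_neg_one]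
    norm_num
  have h2 : (t * (1 / (4 * Real.sqrt Real.pi))) ^ 2 = (8 * Real.sqrt 2 * Real.pi)⁻¹ := by
    have h3 : (t * (1 / (4 * Real.sqrt Real.pi))) ^ 2 =
        t ^ 2 / (16 * Real.sqrt Real.pi ^ 2) := by
      field_simp
      ring
    rw [h3, ht2, Real.sq_sqrt hπ.le, inv_eq_one_div, div_eq_div_iff (by positivity)
      (by positivity)]
    have h4 := Real.mul_self_sqrt (show (0 : ℝ) ≤ 2 by norm_num)
    nlinarith
  exact (pow_left_inj₀ ks_pos.le (by positivity) two_ne_zero).1 (h1.trans h2.symm)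

theorem log4_small : ∀ᶠ n : ℕ in atTop, Real.log n ^ 4 ≤ 1 / 2 * (n : ℝ) := by
  have h1 := (Real.isLittleO_pow_log_id_atTop (n := 4)).def (c := 1 / 2) (by norm_num)
  have h2 := tendsto_natCast_atTop_atTop.eventually h1
  filter_upwards [h2, eventually_ge_atTop 1] with n hn hn1
  have h3 : (0 : ℝ) ≤ Real.log n ^ 4 := by positivity
  rw [Real.norm_of_nonneg h3, id, Real.norm_of_nonneg (Nat.cast_nonneg n)] at hn
  exact hn

theorem loginv_inf : Tendsto (fun lam : ℝ => Real.log (1 / lam)) (𝓝[>] (0 : ℝ)) atTop := by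
  have h1 : Tendsto (fun lam : ℝ => 1 / lam) (𝓝[>] (0 : ℝ)) atTop := by
    refine tendsto_inv_nhdsGT_zero.congr fun x => ?_
    rw [one_div]
  exact Real.tendsto_log_atTop.comp h1

theorem pf_UPY (hNEG : Pool.Agent.H99.CE.T_NEG) (hMOH : Pool.Agent.H98.SLN.T_MOH)
    (hUFX : T_UFX) (hPLX : T_PLX) (hKRY : T_KRY) : T_UPY := by
  intro e0 he0 K hK0 cK hcK hK μ _ hexp hmean hvar
  obtain ⟨kp, hkp⟩ : ∃ kp : ℝ, kp = ks + e0 := ⟨_, rfl⟩
  have hks := ks_pos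
  have hkp0 : 0 < kp := by rw [hkp]; linarith
  obtain ⟨ϑ, U, δ2, hϑ0, hϑ1, hU, hδ2, hufx⟩ := hUFX kp (by rw [hkp]; linarith)
  have hkry := hKRY (ϑ / 8) (by linarith) (by linarith) K hK0 cK hcK hK
  obtain ⟨C, lam0, hC, hlam0, hplx⟩ := hPLX μ hexp hmean hvar ϑ U hϑ0 hU
  -- the constants
  obtain ⟨B, hB⟩ : ∃ B : ℝ, B = 1 / (4 * Real.sqrt Real.pi) + e0 := ⟨_, rfl⟩
  have hsp : 0 < Real.sqrt Real.pi := Real.sqrt_pos.2 Real.pi_pos
  have hB0 : 0 < B := by rw [hB]; positivity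
  obtain ⟨t, ht⟩ : ∃ t : ℝ, t = (2 : ℝ) ^ (1 / 4 : ℝ) := ⟨_, rfl⟩
  have ht1 : 1 < t := by
    rw [ht]
    exact Real.one_lt_rpow (by norm_num) (by norm_num)
  have ht4 : t ^ 4 = 2 := by
    rw [ht]
    exact root_pow4 (by norm_num)
  have hkB : kp < t * B := by
    rw [hkp, ks_eq, ← ht, hB]
    nlinarith
  have hkB4 : kp ^ 4 < 2 * B ^ 4 := by
    have h1 : kp ^ 4 < (t * B) ^ 4 := pow_lt_pow_left₀ hkB hkp0.le (by norm_num)
    rw [mul_pow, ht4] at h1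
    exact h1
  obtain ⟨ρ, hρ⟩ : ∃ ρ : ℝ, ρ = 2 * B ^ 4 - kp ^ 4 := ⟨_, rfl⟩
  have hρ0 : 0 < ρ := by rw [hρ]; linarith
  have hloginf : Tendsto (fun n : ℕ => Real.log n) atTop atTop :=
    Real.tendsto_log_atTop.comp tendsto_natCast_atTop_atTop
  have e1 := (cells_inf ϑ hϑ0).eventually hkry
  have e2 := (cells_inf ϑ hϑ0).eventually (hloginf.eventually (eventually_gt_atTop (1 / δ2)))
  have e3 := (cells_inf ϑ hϑ0).eventually (hloginf.eventually (eventually_ge_atTop (kp ^ 4)))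
  have e4 := (cells_inf ϑ hϑ0).eventually log4_small
  have e5 : ∀ᶠ lam in 𝓝[>] (0 : ℝ), lam < min lam0 (min (1 / 2) (1 / C ^ 2)) :=
    mem_nhdsWithin_of_mem_nhds (gt_mem_nhds (lt_min hlam0 (lt_min (by norm_num)
      (by positivity))))
  have e6 := (cells_inf ϑ hϑ0).eventually (eventually_ge_atTop ⌈16 / ϑ⌉₊)
  have e7 := loginv_inf.eventually (eventually_ge_atTop (-(B ^ 4 * Real.log ϑ) / ρ))
  have e8 := (cells_inf ϑ hϑ0).eventually (hloginf.eventually (eventually_ge_atTop (1 : ℝ)))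
  filter_upwards [e1, e2, e3, e4, e5, e6, e7, e8, self_mem_nhdsWithin] with lam g1 g2 g3 g4 g5
    g6 g7 g8 hlam
  have h0 : 0 < lam := hlam
  have hl0 : lam < lam0 := g5.trans_le (min_le_left _ _)
  have hl1 : lam < 1 / 2 := g5.trans_le ((min_le_right _ _).trans (min_le_left _ _))
  have hl2 : lam < 1 / C ^ 2 := g5.trans_le ((min_le_right _ _).trans (min_le_right _ _))
  obtain ⟨k, hk⟩ : ∃ k : ℕ, k = ⌈ϑ / lam ^ 2⌉₊ := ⟨_, rfl⟩
  rw [← hk] at g1 g2 g3 g4 g6 g8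
  obtain ⟨y, hy⟩ : ∃ y : ℝ, y = Real.log k := ⟨_, rfl⟩
  rw [← hy] at g1 g2 g3 g4 g8
  have hy0 : 0 < y := by linarith
  obtain ⟨δ, hδ⟩ : ∃ δ : ℝ, δ = 1 / y := ⟨_, rfl⟩
  rw [← hδ] at g1
  have hδ0 : 0 < δ := by rw [hδ]; positivity
  have hδlt2 : δ < δ2 := by
    rw [hδ, div_lt_iff₀ hy0]
    rw [div_lt_iff₀ hδ2] at g2
    linarith
  have hδ1 : δ ≤ 1 := by
    rw [hδ, div_le_iff₀ hy0]
    linarith
  have hlamsq : 0 < lam ^ 2 := by positivity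
  have hkle : (k : ℝ) ≤ 2 / lam ^ 2 := by
    have h1 : (k : ℝ) < ϑ / lam ^ 2 + 1 := by
      rw [hk]
      exact Nat.ceil_lt_add_one (by positivity)
    have h2 : (1 : ℝ) ≤ 1 / lam ^ 2 := by
      rw [le_div_iff₀ hlamsq]
      nlinarith
    have h3 : ϑ / lam ^ 2 ≤ 1 / lam ^ 2 :=
      div_le_div_of_nonneg_right (by linarith) hlamsq.le
    have h4 : 2 / lam ^ 2 = 1 / lam ^ 2 + 1 / lam ^ 2 := by ring
    rw [h4]
    linarith
  have hkge : ϑ / lam ^ 2 ≤ (k : ℝ) := by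
    rw [hk]
    exact Nat.le_ceil _
  have hy2 : y ^ 2 ≤ 1 / lam := by
    have h1 : (y ^ 2) ^ 2 ≤ (1 / lam) ^ 2 := by
      calc (y ^ 2) ^ 2 = y ^ 4 := by ring
        _ ≤ 1 / 2 * (k : ℝ) := g4
        _ ≤ 1 / 2 * (2 / lam ^ 2) := mul_le_mul_of_nonneg_left hkle (by norm_num)
        _ = (1 / lam) ^ 2 := by ring
    exact (pow_le_pow_iff_left₀ (by positivity) (by positivity) two_ne_zero).1 h1
  have hlC : C * lam ≤ δ := by
    have h1 : (C * lam * y) ^ 2 ≤ 1 ^ 2 := by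
      have h2 : lam * y ^ 2 ≤ 1 := by
        have := mul_le_mul_of_nonneg_left hy2 h0.le
        calc lam * y ^ 2 ≤ lam * (1 / lam) := this
          _ = 1 := by field_simp
      have h3 : C ^ 2 * lam ≤ 1 := by
        rw [lt_div_iff₀ (by positivity)] at hl2
        linarith
      calc (C * lam * y) ^ 2 = (C ^ 2 * lam) * (lam * y ^ 2) := by ring
        _ ≤ 1 * 1 := mul_le_mul h3 h2 (by positivity) (by norm_num)
        _ = 1 ^ 2 := by norm_num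
    have h4 := (pow_le_pow_iff_left₀ (by positivity) (by norm_num) two_ne_zero).1 h1
    rw [hδ, le_div_iff₀ hy0]
    exact h4
  obtain ⟨ε, hε⟩ : ∃ ε : ℝ, ε = kp * δ ^ (1 / 4 : ℝ) := ⟨_, rfl⟩
  have hδq : 0 ≤ δ ^ (1 / 4 : ℝ) := Real.rpow_nonneg hδ0.le _
  have hε0 : 0 ≤ ε := by rw [hε]; positivity
  have hε1 : ε ≤ 1 := by
    have h5 : δ ≤ (1 / kp) ^ 4 := by
      rw [hδ, div_pow, one_pow]
      exact one_div_le_one_div_of_le (by positivity) g3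
    have h1 : δ ^ (1 / 4 : ℝ) ≤ ((1 / kp) ^ 4) ^ (1 / 4 : ℝ) :=
      Real.rpow_le_rpow hδ0.le h5 (by norm_num)
    rw [pow4_root (by positivity)] at h1
    rw [hε]
    calc kp * δ ^ (1 / 4 : ℝ) ≤ kp * (1 / kp) := mul_le_mul_of_nonneg_left h1 hkp0.le
      _ = 1 := by field_simp
  have hEG := hplx lam ε h0 hl0 hε0 hε1
  rw [← hk, hε] at hEG
  have hqk : ⌊Real.sqrt δ * k⌋₊ ≤ k := by
    refine Nat.floor_le_of_le ?_
    have h1 : Real.sqrt δ ≤ 1 := by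
      rw [← Real.sqrt_one]
      exact Real.sqrt_le_sqrt hδ1
    have h2 : (0 : ℝ) ≤ k := Nat.cast_nonneg k
    nlinarith
  have hϑk : 16 ≤ ϑ * k := by
    have h1 : 16 / ϑ ≤ (k : ℝ) := (Nat.le_ceil _).trans (by exact_mod_cast g6)
    rw [div_le_iff₀ hϑ0] at h1
    linarith
  obtain ⟨θ, C', hθ0, -, hC', hbd⟩ := hufx K 1 cK δ (C * lam) k _ _
    (chargeLaw μ lam ((3 / 4 + kp * δ ^ (1 / 4 : ℝ)) * lam)) hδlt2 g1 hEG (by positivity) hlC
    (reg_of_RX hϑ0 hcK g1) hqk hϑk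
  have hcrit := crit_le hNEG hMOH K μ hexp lam _ θ C' h0 (by positivity) hθ0 hC' hbd
  -- the last comparison
  obtain ⟨x, hx⟩ : ∃ x : ℝ, x = Real.log (1 / lam) := ⟨_, rfl⟩
  have hx0 : 0 < x := by
    rw [hx]
    refine Real.log_pos ?_
    rw [lt_div_iff₀ h0]
    linarith
  have hyx : 2 * x + Real.log ϑ ≤ y := by
    have h1 : Real.log (ϑ / lam ^ 2) ≤ y := by
      rw [hy]
      exact Real.log_le_log (by positivity) hkge
    have h2 : Real.log (ϑ / lam ^ 2) = 2 * x + Real.log ϑ := by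
      rw [hx, Real.log_div hϑ0.ne' hlamsq.ne', Real.log_pow, one_div, Real.log_inv]
      push_cast
      ring
    rw [← h2]
    exact h1
  have hxy : kp ^ 4 * x ≤ B ^ 4 * y := by
    rw [← hx, div_le_iff₀ hρ0] at g7
    have h1 := mul_le_mul_of_nonneg_left hyx (show (0 : ℝ) ≤ B ^ 4 by positivity)
    refine le_trans ?_ h1
    rw [hρ] at g7
    linarith
  have hroot : kp * x ^ (1 / 4 : ℝ) ≤ B * y ^ (1 / 4 : ℝ) := by
    have h1 := Real.rpow_le_rpow (by positivity) hxy (show (0 : ℝ) ≤ 1 / 4 by norm_num)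
    rw [Real.mul_rpow (by positivity) hx0.le, Real.mul_rpow (by positivity) hy0.le,
      pow4_root hkp0.le, pow4_root hB0.le] at h1
    exact h1
  have hxq : 0 < x ^ (1 / 4 : ℝ) := Real.rpow_pos_of_pos hx0 _
  have hyq : 0 < y ^ (1 / 4 : ℝ) := Real.rpow_pos_of_pos hy0 _
  have hfin : kp * δ ^ (1 / 4 : ℝ) ≤ B * x ^ (-(1 / 4) : ℝ) := by
    rw [hδ, Real.div_rpow (by norm_num) hy0.le, Real.one_rpow, Real.rpow_neg hx0.le,
      mul_one_div, ← div_eq_mul_inv, div_le_div_iff₀ hyq hxq]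
    exact hroot
  rw [div_le_iff₀ h0, ← hx, ← hB]
  calc criticalCurve K μ lam ≤ (3 / 4 + kp * δ ^ (1 / 4 : ℝ)) * lam := hcrit
    _ ≤ (3 / 4 + B * x ^ (-(1 / 4) : ℝ)) * lam := by
      refine mul_le_mul_of_nonneg_right ?_ h0.le
      linarith

end Pool.Agent.H67.EX
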